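import Mathlib
import Pool.Agent.W543.MO.Parts

set_option autoImplicit false

/-! Project MO (helper543), part SSCAT. -/

open CategoryTheory

namespace Pool.Agent.W15.MO

open Pool.Agent.W543.MO

theorem t_SSCAT : SSCAT_stmt := by
  intro 𝒟 _ _ _ _ hreg
  have hker : ∀ {X Y : 𝒟} (f : X ⟶ Y), Limits.HasKernel f := by
    intro X Y f
    obtain ⟨g, hg⟩ := hreg f
    have he : (𝟙 X - f ≫ g) ≫ (𝟙 X - f ≫ g) = 𝟙 X - f ≫ g := by
      have h1 : (f ≫ g) ≫ (f ≫ g) = f ≫ g := by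
        calc (f ≫ g) ≫ (f ≫ g) = (f ≫ g ≫ f) ≫ g := by simp only [Category.assoc]
          _ = f ≫ g := by rw [hg]
      rw [Preadditive.sub_comp, Preadditive.comp_sub, Preadditive.comp_sub, h1]
      simp
    obtain ⟨K, i, p, h1, h2⟩ := IsIdempotentComplete.idempotents_split X _ he
    have h3 : (𝟙 X - f ≫ g) ≫ f = 0 := by
      rw [Preadditive.sub_comp, Category.assoc, hg]
      simp
    have hw : i ≫ f = 0 := by
      calc i ≫ f = (i ≫ p) ≫ i ≫ f := by rw [h1, Category.id_comp]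
        _ = i ≫ (p ≫ i) ≫ f := by simp only [Category.assoc]
        _ = 0 := by rw [h2, h3, Limits.comp_zero]
    refine ⟨⟨⟨Limits.KernelFork.ofι i hw, Limits.KernelFork.IsLimit.ofι i hw
      (fun h _ => h ≫ p) ?_ ?_⟩⟩⟩
    · intro W h hh
      rw [Category.assoc, h2, Preadditive.comp_sub, ← Category.assoc h f g, hh]
      simp
    · intro W h hh m hm
      rw [← hm, Category.assoc, h1, Category.comp_id]
  have hcok : ∀ {X Y : 𝒟} (f : X ⟶ Y), Limits.HasCokernel f := by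
    intro X Y f
    obtain ⟨g, hg⟩ := hreg f
    have he : (𝟙 Y - g ≫ f) ≫ (𝟙 Y - g ≫ f) = 𝟙 Y - g ≫ f := by
      have h1 : (g ≫ f) ≫ (g ≫ f) = g ≫ f := by
        calc (g ≫ f) ≫ (g ≫ f) = g ≫ (f ≫ g ≫ f) := by simp only [Category.assoc]
          _ = g ≫ f := by rw [hg]
      rw [Preadditive.sub_comp, Preadditive.comp_sub, Preadditive.comp_sub, h1]
      simp
    obtain ⟨K, i, p, h1, h2⟩ := IsIdempotentComplete.idempotents_split Y _ he
    have h3 : f ≫ (𝟙 Y - g ≫ f) = 0 := by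
      rw [Preadditive.comp_sub, hg]
      simp
    have hw : f ≫ p = 0 := by
      calc f ≫ p = f ≫ p ≫ (i ≫ p) := by rw [h1, Category.comp_id]
        _ = (f ≫ (p ≫ i)) ≫ p := by simp only [Category.assoc]
        _ = 0 := by rw [h2, h3, Limits.zero_comp]
    refine ⟨⟨⟨Limits.CokernelCofork.ofπ p hw, Limits.CokernelCofork.IsColimit.ofπ p hw
      (fun h _ => i ≫ h) ?_ ?_⟩⟩⟩
    · intro W h hh
      rw [← Category.assoc, h2, Preadditive.sub_comp, Category.assoc, hh]
      simp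
    · intro W h hh m hm
      rw [← hm, ← Category.assoc, h1, Category.id_comp]
  have hmono : ∀ {X Y : 𝒟} (f : X ⟶ Y), Mono f → ∃ g : Y ⟶ X, f ≫ g = 𝟙 X := by
    intro X Y f hf
    obtain ⟨g, hg⟩ := hreg f
    refine ⟨g, ?_⟩
    rw [← cancel_mono f, Category.assoc, hg, Category.id_comp]
  have hepi : ∀ {X Y : 𝒟} (f : X ⟶ Y), Epi f → ∃ g : Y ⟶ X, g ≫ f = 𝟙 Y := by
    intro X Y f hf
    obtain ⟨g, hg⟩ := hreg f
    refine ⟨g, ?_⟩
    rw [← cancel_epi f, hg, Category.comp_id]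
  have i1 : Limits.HasKernels 𝒟 := ⟨fun f => hker f⟩
  have i2 : Limits.HasCokernels 𝒟 := ⟨fun f => hcok f⟩
  have i3 : IsNormalMonoCategory 𝒟 := by
    refine ⟨fun {X Y} f hf => ?_⟩
    obtain ⟨g, hg⟩ := hmono f hf
    have hw : f ≫ (𝟙 Y - g ≫ f) = 0 := by
      rw [Preadditive.comp_sub, ← Category.assoc, hg]
      simp
    refine ⟨⟨Y, 𝟙 Y - g ≫ f, hw, Limits.KernelFork.IsLimit.ofι f hw (fun h _ => h ≫ g) ?_ ?_⟩⟩
    · intro W h hh
      rw [Preadditive.comp_sub, Category.comp_id, sub_eq_zero] at hh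
      rw [Category.assoc]
      exact hh.symm
    · intro W h hh m hm
      rw [← hm, Category.assoc, hg, Category.comp_id]
  have i4 : IsNormalEpiCategory 𝒟 := by
    refine ⟨fun {X Y} f hf => ?_⟩
    obtain ⟨g, hg⟩ := hepi f hf
    have hw : (𝟙 X - f ≫ g) ≫ f = 0 := by
      rw [Preadditive.sub_comp, Category.assoc, hg]
      simp
    refine ⟨⟨X, 𝟙 X - f ≫ g, hw, Limits.CokernelCofork.IsColimit.ofπ f hw (fun h _ => g ≫ h)
      ?_ ?_⟩⟩
    · intro W h hh
      rw [Preadditive.sub_comp, Category.id_comp, sub_eq_zero] at hh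
      rw [← Category.assoc]
      exact hh.symm
    · intro W h hh m hm
      rw [← hm, ← Category.assoc, hg, Category.id_comp]
  have i5 : Limits.HasFiniteProducts 𝒟 := inferInstance
  let _ : Abelian 𝒟 := { (inferInstance : Preadditive 𝒟) with
    normalMonoOfMono := i3.normalMonoOfMono
    normalEpiOfEpi := i4.normalEpiOfEpi
    has_finite_products := i5
    has_kernels := i1
    has_cokernels := i2 }
  refine ⟨⟨inferInstance, i1, i2, fun f => ?_⟩, hmono⟩
  exact (inferInstance : IsIso (Abelian.coimageImageComparison f))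

end Pool.Agent.W15.MO
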